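import Pool.Agent.H192R2.CW.Paw

set_option autoImplicit false

/-!
# Bounded clique-width for graphs excluding an induced topological minor

Clique-width is bounded on the class of the finite graphs which do not contain `H` as an induced
topological minor if and only if `H` is an induced subgraph of `P₄`, of the paw or of the diamond.

The definitions (induced topological minors `ITM`, expressions `Expr` and clique-width
`CliqueWidthLE`, `BoundedCliqueWidth`, `paw`, `diamond`) are in `Pool.Agent.H192R2.CW.Defs`.
-/

namespace Pool.Agent.Results.MP_d0d08e_co.Dichotomy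

open Pool.Agent.H192R2.CW

lemma bounded_path : BoundedCliqueWidth (SimpleGraph.pathGraph 4) := by
  refine ⟨4, fun V _ _ G hG => ?_⟩
  classical
  have : Fintype V := Fintype.ofFinite V
  rw [p4_eq] at hG
  have hP : P4Free G.Adj Finset.univ := by
    intro a _ b _ c _ d _ hab hac had hbc hbd hcd ⟨h1, h2, h3, h4, h5, h6⟩
    apply hG
    have p01 : p4.Adj 0 1 := by decide
    have p12 : p4.Adj 1 2 := by decide
    have p23 : p4.Adj 2 3 := by decide
    have p02 : ¬ p4.Adj 0 2 := by decide
    have p03 : ¬ p4.Adj 0 3 := by decide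
    have p13 : ¬ p4.Adj 1 3 := by decide
    obtain ⟨φ⟩ := emb4 (H := G) (F := p4) a b c d hab hac hbc had hbd hcd
      (by simp only [h1, p01]) (by simp only [h4, p02]) (by simp only [h2, p12])
      (by simp only [h6, p03]) (by simp only [h5, p13]) (by simp only [h3, p23])
    exact ITM.of_induced φ
  have h := D.of_P4Free _ Finset.univ rfl Finset.univ_nonempty hP
  rw [Finset.coe_univ] at h
  exact h.cliqueWidthLE

lemma bounded_diamond : BoundedCliqueWidth diamond := by
  refine ⟨4, fun V _ _ G hG => ?_⟩
  classical
  have : Fintype V := Fintype.ofFinite V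
  obtain ⟨l, h⟩ := D.of_components (G := G) (fun s hs hconn => by
    obtain ⟨r, hr⟩ := hs
    exact ⟨_, D.of_diamondFree hG _ s rfl hconn r hr 0⟩) _ Finset.univ rfl Finset.univ_nonempty
  rw [Finset.coe_univ] at h
  exact h.cliqueWidthLE

lemma bounded_paw : BoundedCliqueWidth paw := by
  refine ⟨4, fun V _ _ G hG => ?_⟩
  classical
  have : Fintype V := Fintype.ofFinite V
  obtain ⟨l, h⟩ := D.of_components (G := G) (fun s hs hconn => by
    by_cases hd : ITM diamond (restr G s)
    · exact ⟨_, D.of_P4Free _ s rfl hs (P4Free_or hG hconn hd)⟩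
    · obtain ⟨r, hr⟩ := hs
      have hconn' : Conn (restr G s) (s : Set V) := by
        intro T hT hne hcl
        exact hconn T hT hne (fun x hx y hy hxy => hcl x hx y hy ⟨hxy, hT hx, hy⟩)
      have h := D.of_diamondFree hd _ s rfl hconn' r hr 0
      exact ⟨_, h.congr (fun x hx y hy => ⟨fun h => h.1, fun h => ⟨h, hx, hy⟩⟩)
        (fun _ _ => rfl)⟩) _ Finset.univ rfl Finset.univ_nonempty
  rw [Finset.coe_univ] at h
  exact h.cliqueWidthLE

/-- Clique-width is bounded on the class of the finite graphs which do not contain the finite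
graph `H` as an induced topological minor if and only if `H` is an induced subgraph of `P₄`, of
the paw or of the diamond. -/
theorem result {W : Type} [Finite W] (H : SimpleGraph W) :
    BoundedCliqueWidth H ↔
      Nonempty (H ↪g SimpleGraph.pathGraph 4) ∨ Nonempty (H ↪g paw) ∨ Nonempty (H ↪g diamond) := by
  constructor
  · exact good_of_bounded H
  · rintro (⟨⟨φ⟩⟩ | ⟨⟨φ⟩⟩ | ⟨⟨φ⟩⟩)
    · exact bounded_path.of_embedding φ
    · exact bounded_paw.of_embedding φ
    · exact bounded_diamond.of_embedding φ

end Pool.Agent.Results.MP_d0d08e_co.Dichotomy
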